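import Pool.Agent.R781.VS.Def
import Pool.Agent.W721.SG.MID

/-!
# The bound for the Betti numbers of the deformation
-/

set_option autoImplicit false

namespace Pool.Agent.R781.VS

open Module Pool.Agent.W907.SG
open Pool.Agent.W721.SG.MID (rn)

variable {V F M : Type} [Fintype V] [LinearOrder V] [Field F] [AddCommGroup M] [Module F M]
  {G G0 : SimpleGraph V} {s t : V} {b : V → M →ₗ[F] M} {c d σ : M →ₗ[F] M} {ε : V → F} {n : ℕ}

theorem map_zero_deg {ρ : V → M →ₗ[F] M} :
    (KK G ρ Set.univ ∅ 0).map (bd F) = ⊥ := by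
  rw [eq_bot_iff]
  rintro _ ⟨c, hc, rfl⟩
  rw [Submodule.mem_bot]
  funext T
  rw [bd_apply]
  refine Finset.sum_eq_zero fun v _ => ?_
  rw [(mem_KK.1 hc).1 (insert v T), smul_zero]
  rintro ⟨-, -, h⟩
  have := Finset.card_pos.2 (Finset.insert_nonempty v T)
  omega

theorem beta_up [FiniteDimensional F M] (h2 : (2 : F) ≠ 0) (R : Rel G s t b c d σ)
    (hε : ∀ v, ε v * ε v = 1)
    (hG1 : ∀ T : Finset V, G0.IsClique (T : Set V) → G.IsClique (T : Set V))
    (hG2 : ∀ T : Finset V, G0.IsClique (T : Set V) → s ∈ T → t ∈ T → ε s = ε t)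
    (hG : ∀ T : Finset V, G.IsClique (T : Set V) → ¬ G0.IsClique (T : Set V) → s ∈ T ∧ t ∈ T ∧ ε s = - ε t)
    (k : ℕ) :
    beta G (fun v => ε v • dr (n := n) s t b c d σ v) Set.univ ∅ k ≤
      n * beta G0 (lr s t b d ε) Set.univ ∅ k + 2 ^ Fintype.card V * finrank F M := by
  classical
  have hK := dim_up (n := n) h2 R hε hG k
  have hB := rank_up (n := n) h2 R hε hG1 hG2 k
  have hr : n * finrank F ((KK G0 (lr s t b d ε) Set.univ ∅ k).map (bd F)) ≤
      finrank F ((KK G (fun v => ε v • dr (n := n) s t b c d σ v) Set.univ ∅ k).map (bd F)) := by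
    cases k with
    | zero => rw [map_zero_deg, finrank_bot, mul_zero]; exact Nat.zero_le _
    | succ k => exact rank_up (n := n) h2 R hε hG1 hG2 k
  have r1 := rn (bd F) (KK G (fun v => ε v • dr (n := n) s t b c d σ v) Set.univ ∅ k)
  have r2 := rn (bd F) (KK G0 (lr s t b d ε) Set.univ ∅ k)
  have hD : finrank F (KK G0 (lr s t b d ε) Set.univ ∅ k) ≤ 2 ^ Fintype.card V * finrank F M := by
    refine (Submodule.finrank_le _).trans ?_
    rw [finrank_pi_fintype, Finset.sum_const, Finset.card_univ, Fintype.card_finset, smul_eq_mul]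
  have hZB : finrank F (BB G0 (lr s t b d ε) Set.univ ∅ k) ≤
      finrank F (ZZ G0 (lr s t b d ε) Set.univ ∅ k) := Submodule.finrank_mono (BB_le_ZZ _ _ _ _ _)
  unfold beta
  have e1 : finrank F (ZZ G (fun v => ε v • dr (n := n) s t b c d σ v) Set.univ ∅ k) =
    finrank F (KK G (fun v => ε v • dr (n := n) s t b c d σ v) Set.univ ∅ k ⊓ LinearMap.ker (bd F) :
      Submodule F _) := rfl
  have e2 : finrank F (ZZ G0 (lr s t b d ε) Set.univ ∅ k) =
    finrank F (KK G0 (lr s t b d ε) Set.univ ∅ k ⊓ LinearMap.ker (bd F) : Submodule F _) := rfl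
  rw [← e1] at r1
  rw [← e2] at r2
  rw [Nat.mul_sub]
  generalize finrank F (ZZ G (fun v => ε v • dr (n := n) s t b c d σ v) Set.univ ∅ k) = Z at *
  generalize finrank F (BB G (fun v => ε v • dr (n := n) s t b c d σ v) Set.univ ∅ k) = B at *
  generalize finrank F (KK G (fun v => ε v • dr (n := n) s t b c d σ v) Set.univ ∅ k) = K at *
  generalize finrank F ((KK G (fun v => ε v • dr (n := n) s t b c d σ v) Set.univ ∅ k).map (bd F)) = r at *
  generalize finrank F (ZZ G0 (lr s t b d ε) Set.univ ∅ k) = Z0 at *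
  generalize finrank F (BB G0 (lr s t b d ε) Set.univ ∅ k) = B0 at *
  generalize finrank F (KK G0 (lr s t b d ε) Set.univ ∅ k) = K0 at *
  generalize finrank F ((KK G0 (lr s t b d ε) Set.univ ∅ k).map (bd F)) = r0 at *
  have h3 : (n + 1) * K0 = n * r0 + n * Z0 + K0 := by rw [← r2]; ring
  have h4 : n * B0 ≤ n * Z0 := Nat.mul_le_mul_left n hZB
  omega

/-- the Betti number in the degree before `i` -/
noncomputable def bPrev (G : SimpleGraph V) (ρ : V → M →ₗ[F] M) (A : Set V) : ℕ → ℕ
  | 0 => 0
  | j + 1 => beta G ρ A ∅ j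

/-- The main inequality. -/
theorem beta_def (hmid : S_MID) (hedge : S_EDGE) (heig : S_EIG) [FiniteDimensional F M] (h2 : (2 : F) ≠ 0)
    (R : Rel G s t b c d σ) (hε : ∀ v, ε v = 1 ∨ ε v = -1) (hadj : G.Adj s t) (hsq : NoSq G s t) (k : ℕ) :
    beta G (fun v => ε v • dr (n := n) s t b c d σ v) Set.univ ∅ k ≤
      n * (beta (con G s t) (lr s t b d ε) {t}ᶜ ∅ k +
        bPrev G (lr s t b d ε) (G.neighborSet s ∩ G.neighborSet t) k) +
      2 ^ Fintype.card V * finrank F M := by
  classical
  have hε2 : ∀ v, ε v * ε v = 1 := by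
    intro v
    rcases hε v with h | h <;> rw [h] <;> ring
  have hρ : lr s t b d ε s = lr s t b d ε t := by
    unfold lr
    rw [if_pos (Or.inl rfl), if_pos (Or.inr rfl)]
  have hcon := beta_con (G := G) (ρ := lr s t b d ε) hmid hadj hsq hρ k
  by_cases hst : ε s = ε t
  · have h1 := beta_up (n := n) (G0 := G) h2 R hε2 (fun T h => h) (fun T _ _ _ => hst)
      (fun T h h' => absurd h h') k
    refine h1.trans (Nat.add_le_add_right (Nat.mul_le_mul_left n (hcon.trans (Nat.le_add_right _ _))) _)
  · have hst' : ε s = - ε t := by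
      rcases hε s with h | h <;> rcases hε t with h' | h' <;> rw [h, h'] at hst ⊢ <;> simp_all
    have h1 := beta_up (n := n) (G0 := G.deleteEdges {s(s, t)}) h2 R hε2
      (fun T h => h.mono (SimpleGraph.deleteEdges_le _)) (fun T h hs ht => by
        exfalso
        have h3 := h hs ht hadj.ne
        rw [SimpleGraph.deleteEdges_adj] at h3
        exact h3.2 rfl) (fun T h h' => by
        have h5 : s ∈ T ∧ t ∈ T := by
          by_contra hcon
          apply h'
          intro x hx y hy hxy
          rw [SimpleGraph.deleteEdges_adj]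
          refine ⟨h hx hy hxy, ?_⟩
          rw [Set.mem_singleton_iff, Sym2.eq_iff]
          rintro (⟨rfl, rfl⟩ | ⟨rfl, rfl⟩)
          · exact hcon ⟨hx, hy⟩
          · exact hcon ⟨hy, hx⟩
        exact ⟨h5.1, h5.2, hst'⟩) k
    refine h1.trans (Nat.add_le_add_right (Nat.mul_le_mul_left n ?_) _)
    have hd : lr s t b d ε s = d := if_pos (Or.inl rfl)
    have hd' : lr s t b d ε t = d := if_pos (Or.inr rfl)
    cases k with
    | zero =>
      exact ((hedge V F M G (lr s t b d ε) s t hadj).1.trans hcon).trans (Nat.le_add_right _ _)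
    | succ j =>
      have h3 := (hedge V F M G (lr s t b d ε) s t hadj).2 j
      have hcm : ∀ u ∈ G.neighborSet s ∩ G.neighborSet t, ∀ m,
          lr s t b d ε u (d m) = d (lr s t b d ε u m) := by
        intro u hu m
        have hus : u ≠ s := fun e => G.irrefl (e ▸ hu.1 : G.Adj s s)
        have hut : u ≠ t := fun e => G.irrefl (e ▸ hu.2 : G.Adj t t)
        have hlu : lr s t b d ε u = ε u • b u := if_neg (by rintro (h | h); exacts [hus h, hut h])
        have hu1 : G.Adj s u := hu.1
        rw [hlu, LinearMap.smul_apply, LinearMap.smul_apply, R.bd u hus hut (Or.inl hu1.symm), map_smul]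
      have b2 := heig V F M G (lr s t b d ε) (G.neighborSet s ∩ G.neighborSet t) {t} s h2
        (fun m => by rw [hd, R.d2]) (fun u hu m => by
          rw [hd]
          rcases hu with hu | hu
          · exact hcm u hu m
          · rw [Set.mem_singleton_iff.1 hu, hd']) j
      have b3 := heig V F M G (lr s t b d ε) (G.neighborSet s ∩ G.neighborSet t) ∅ t h2
        (fun m => by rw [hd', R.d2]) (fun u hu m => by
          rw [hd']
          rcases hu with hu | hu
          · exact hcm u hu m
          · exact absurd hu (by simp)) j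
      have e5 : (insert t (∅ : Set V)) = {t} := by simp
      rw [e5] at b3
      exact h3.trans (Nat.add_le_add hcon (b2.trans b3))

end Pool.Agent.R781.VS
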