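import Pool.Agent.TH652.QDef
import Pool.Agent.R781.VS.Contr

/-!
# The class `AR n` of finite graphs
-/

set_option autoImplicit false

namespace Pool.Agent.R781.VS

open Pool.Agent.W907.SG Pool.Agent.W907.SM
open Pool.Agent.TH652.Join (join)
open Pool.Agent.TH652.Above (AQ)

/-- The class `AR n`: the closure of the class `AQ n` under its own operations and under vertex splitting
(the inverse of the contraction of an edge which is not contained in an induced 4-cycle). -/
inductive AR : ℕ → ∀ {V : Type}, SimpleGraph V → Prop
  /-- the members of the class `AQ n` -/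
  | aq {n : ℕ} {V : Type} (G : SimpleGraph V) : AQ n G → AR n G
  /-- vertex splitting: the edge `st` of `G` is not contained in an induced 4-cycle; the graph obtained by
  contracting it and the links of `s` and `t` are in the class `n + 2`, the link of the edge is in the class `n` -/
  | split {n : ℕ} {V : Type} [Finite V] (G : SimpleGraph V) (s t : V) : G.Adj s t → NoSq G s t →
      AR (n + 2) ((con G s t).induce {t}ᶜ) → AR n (G.induce (G.neighborSet s ∩ G.neighborSet t)) →
      AR (n + 2) (G.induce (G.neighborSet s)) → AR (n + 2) (G.induce (G.neighborSet t)) → AR (n + 2) G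
  /-- full subcomplexes -/
  | full {n : ℕ} {V : Type} (G : SimpleGraph V) (A : Set V) : AR n G → AR n (G.induce A)
  /-- joins -/
  | join {m n : ℕ} {V U : Type} (G : SimpleGraph V) (H : SimpleGraph U) : AR m G → AR n H → AR (m + n) (join G H)
  /-- from `n` to `n + 1` -/
  | succ {n : ℕ} {V : Type} (G : SimpleGraph V) : AR n G → AR (n + 1) G
  /-- from `2 m + 1` to `2 m` -/
  | pred {m : ℕ} {V : Type} (G : SimpleGraph V) : AR (2 * m + 1) G → AR (2 * m) G
  /-- deleting an edge whose link is in the class `n` -/
  | del {n : ℕ} {V : Type} [Finite V] (G : SimpleGraph V) (s t : V) : G.Adj s t → AR (n + 2) G →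
      AR n (G.induce (G.neighborSet s ∩ G.neighborSet t)) → AR (n + 2) (G.deleteEdges {s(s, t)})
  /-- even length: the vertices whose links are not in the class `2 m + 1` span a subcomplex of dimension at
  most `m` -/
  | loc {m : ℕ} {V : Type} [Finite V] (G : SimpleGraph V) (B : Set V) :
      (∀ T : Finset V, G.IsClique (T : Set V) → (T : Set V) ⊆ B → T.card ≤ m + 1) →
      (∀ v, v ∉ B → AR (2 * m + 1) (G.induce (G.neighborSet v))) → AR (2 * m + 2) G
  /-- adding a vertex whose link is in the class `n` -/
  | vert {n : ℕ} {V : Type} [Finite V] (G : SimpleGraph V) (v : V) : AR (n + 2) (G.induce {v}ᶜ) →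
      AR n (G.induce (G.neighborSet v)) → AR (n + 2) G
  /-- gluing along a full subcomplex of the class `n` -/
  | glue {n : ℕ} {V : Type} [Finite V] (G : SimpleGraph V) (A B : Set V) : A ∪ B = Set.univ →
      (∀ a ∈ A, a ∉ B → ∀ b ∈ B, b ∉ A → ¬ G.Adj a b) → AR (n + 2) (G.induce A) → AR (n + 2) (G.induce B) →
      AR n (G.induce (A ∩ B)) → AR (n + 2) G
  /-- isomorphic graphs -/
  | iso {n : ℕ} {V U : Type} (G : SimpleGraph V) (H : SimpleGraph U) : Nonempty (G ≃g H) → AR n G → AR n H

end Pool.Agent.R781.VS
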