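import Pool.Agent.R781.VS.Split

/-!
# The vertex splitting theorem for `ℓ²`-homology
-/

set_option autoImplicit false
set_option linter.unusedSectionVars false

namespace Pool.Agent.R781.VS

open Module Pool.Agent.W907.SG Pool.Agent.W907.SM
open Pool.Agent.W338.SG (small_restrict)

theorem small_both {V : Type} [Fintype V] [LinearOrder V] (H : SimpleGraph V) (A K : Set V) [Fintype A]
    [Fintype K] (i : ℕ) (h1 : L2Van (H.induce A) i) (h2 : ∀ j, i = j + 1 → L2Van (H.induce K) j) (N : ℕ) :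
    ∃ E : Finset (W H), (1 : W H) ∉ E ∧ ∀ (X : Type) [Fintype X] (a : V → X → X)
      (ev : X → W H → X), (∀ v x, a v (a v x) = x) →
      (∀ u v, H.Adj u v → ∀ x, a u (a v x) = a v (a u x)) →
      (∀ x, ev x 1 = x) → (∀ x g h, ev x (g * h) = ev (ev x g) h) →
      (∀ x v, ev x ((cox H).simple v) = a v x) →
      (∀ g ∈ E, ∀ x, ev x g ≠ x) → N * beta H (pull ℝ a) A ∅ i ≤ Fintype.card X ∧
        N * bPrev H (pull ℝ a) K i ≤ Fintype.card X := by
  classical
  obtain ⟨E1, hE1, hX1⟩ := small_restrict small tr H A i h1 N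
  cases i with
  | zero =>
    exact ⟨E1, hE1, fun X _ a ev k1 k2 k3 k4 k5 k6 => ⟨hX1 X a ev k1 k2 k3 k4 k5 k6, Nat.zero_le _⟩⟩
  | succ j =>
    obtain ⟨E2, hE2, hX2⟩ := small_restrict small tr H K j (h2 j rfl) N
    refine ⟨E1 ∪ E2, fun h => ?_, fun X _ a ev k1 k2 k3 k4 k5 k6 => ⟨?_, ?_⟩⟩
    · rcases Finset.mem_union.1 h with h | h
      · exact hE1 h
      · exact hE2 h
    · exact hX1 X a ev k1 k2 k3 k4 k5 (fun g hg => k6 g (Finset.mem_union_left _ hg))
    · exact hX2 X a ev k1 k2 k3 k4 k5 (fun g hg => k6 g (Finset.mem_union_right _ hg))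

theorem arith_final {N n cP cX m cY bY bJ R1 R2 : ℕ} (hz : 0 < cP * cX) (hm : 0 < m)
    (h1 : ((cP * m) * ((n + 1) * cX)) * bY ≤ cY * bJ)
    (h2 : bJ ≤ m * (n * (R1 + R2) + m * (cP * cX)))
    (h3 : 4 * (N + 1) * R1 ≤ cP * cX) (h4 : 4 * (N + 1) * R2 ≤ cP * cX)
    (hn : n + 1 = 4 * (N + 1) * m) : N * bY ≤ cY := by
  set z := cP * cX with hzd
  have e1 : m * (z * (n + 1) * bY) ≤ m * (cY * (n * (R1 + R2) + m * z)) := by
    calc m * (z * (n + 1) * bY) = ((cP * m) * ((n + 1) * cX)) * bY := by rw [hzd]; ring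
      _ ≤ cY * bJ := h1
      _ ≤ cY * (m * (n * (R1 + R2) + m * z)) := Nat.mul_le_mul_left _ h2
      _ = _ := by ring
  have e2 := Nat.le_of_mul_le_mul_left e1 hm
  have e3 : (z * (n + 1)) * (4 * (N + 1) * bY) ≤ (z * (n + 1)) * (3 * cY) := by
    calc (z * (n + 1)) * (4 * (N + 1) * bY) = 4 * (N + 1) * (z * (n + 1) * bY) := by ring
      _ ≤ 4 * (N + 1) * (cY * (n * (R1 + R2) + m * z)) := Nat.mul_le_mul_left _ e2
      _ = cY * (n * (4 * (N + 1) * R1) + n * (4 * (N + 1) * R2) + (4 * (N + 1) * m) * z) := by ring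
      _ ≤ cY * (n * z + n * z + (n + 1) * z) := by
        rw [← hn]
        refine Nat.mul_le_mul_left _ (Nat.add_le_add_right (Nat.add_le_add ?_ ?_) _)
        · exact Nat.mul_le_mul_left _ h3
        · exact Nat.mul_le_mul_left _ h4
      _ ≤ cY * (3 * ((n + 1) * z)) := by
        refine Nat.mul_le_mul_left _ ?_
        have : (n + 1) * z = n * z + z := by ring
        omega
      _ = _ := by ring
  have e4 := Nat.le_of_mul_le_mul_left e3 (Nat.mul_pos hz (Nat.succ_pos n))
  have e5 : 4 * (N + 1) * bY = 4 * (N * bY) + 4 * bY := by ring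
  omega

/-- **Vertex splitting.** If the edge `st` is not contained in an induced 4-cycle, then `ℓ²`-vanishing for
the contraction in degree `i` and for the link of the edge in degree `i - 1` imply `ℓ²`-vanishing in
degree `i`. -/
theorem l2split (V : Type) [Fintype V] [LinearOrder V] (G : SimpleGraph V) (s t : V)
    [Fintype ↥({t}ᶜ : Set V)] [Fintype ↥(G.neighborSet s ∩ G.neighborSet t)] (i : ℕ) (hst : G.Adj s t)
    (hsq : NoSq G s t) (h1 : L2Van ((con G s t).induce {t}ᶜ) i)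
    (h2 : ∀ j, i = j + 1 → L2Van (G.induce (G.neighborSet s ∩ G.neighborSet t)) j) : L2Van G i := by
  classical
  have hKs : ∀ v ∈ G.neighborSet s ∩ G.neighborSet t, v ≠ s := fun v hv e => by
    subst e
    exact G.irrefl hv.1
  have hKt : ∀ v ∈ G.neighborSet s ∩ G.neighborSet t, v ≠ t := fun v hv e => by
    subst e
    exact G.irrefl hv.2
  have hKeq : (con G s t).induce (G.neighborSet s ∩ G.neighborSet t) =
      G.induce (G.neighborSet s ∩ G.neighborSet t) := by
    ext u v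
    exact con_adj_iff (hKs _ u.2) (hKt _ u.2) (hKs _ v.2) (hKt _ v.2)
  refine l2van_of large nilp charT mlp G i fun N => ?_
  have : Fact (Nat.Prime 3) := ⟨Nat.prime_three⟩
  obtain ⟨E, hE, hX⟩ := small_both (con G s t) {t}ᶜ (G.neighborSet s ∩ G.neighborSet t) i h1 (by
    rw [hKeq]; exact h2) (4 * (N + 1))
  obtain ⟨X, _, _, P, ev, f1, f2, f3, f4⟩ := nilp 3 V (con G s t) E (by decide) hE
  obtain ⟨q, hq⟩ : ∃ q : V → Equiv.Perm X, ∀ v x, q v x = P.a v x := ⟨fun v => ip (P.a v) (P.inv v),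
    fun _ _ => rfl⟩
  have D : Dat G s t q P.sgn :=
    { adj := hst
      inv := fun v => Equiv.ext fun x => by
        show q v (q v x) = x
        rw [hq, hq, P.inv]
      comm := fun u v huv => Equiv.ext fun x => by
        show q u (q v x) = q v (q u x)
        rw [hq, hq, hq, hq, P.comm u v huv]
      ss := fun v x => by rw [hq, P.sgn_self]
      so := fun u v huv x => by rw [hq, P.sgn_other u v huv] }
  -- the set `Z`
  obtain ⟨evP, g1, g2, g3⟩ := exists_ev (con G s t)
    (fun v (π : Equiv.Perm X) => if v = s then π else q v * π) (fun v π => by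
      by_cases h : v = s
      · simp only [if_pos h]
      · simp only [if_neg h, D.inv_mul]) (fun u v huv π => by
      have h1 := congrArg Prod.fst (aZ_comm D u v huv (π, Classical.arbitrary X))
      exact h1)
  obtain ⟨hZ1, hZ2⟩ := hX (Equiv.Perm X × X) (aZ q s) (fun z g => (evP z.1 g, ev z.2 g))
    (aZ_inv D) (aZ_comm D) (fun z => by
      simp only [g1, f1]) (fun z g h => by
      simp only [g2, f2]) (fun z v => by
      refine Prod.ext (g3 z.1 v) ?_
      show ev z.2 ((cox (con G s t)).simple v) = q v z.2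
      rw [f3, hq]) (fun g hg z h => f4 g hg z.2 (congrArg Prod.snd h))
  rw [Fintype.card_prod] at hZ1 hZ2
  -- the prime
  obtain ⟨P1, hP1⟩ := lrb sub tr charT D {t}ᶜ (by simp) i
  obtain ⟨P2, hP2⟩ : ∃ P2 : ℕ, ∀ (p : ℕ) [Fact p.Prime], P2 ≤ p → (2 : ZMod p) ≠ 0 → ∀ ε : V → ZMod p,
      (∀ v, ε v = 1 ∨ ε v = -1) →
      bPrev G (lr s t (bM (ZMod p) q) (dM (ZMod p) (q s)) ε) (G.neighborSet s ∩ G.neighborSet t) i ≤
        bPrev (con G s t) (pull ℝ (aZ q s)) (G.neighborSet s ∩ G.neighborSet t) i := by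
    cases i with
    | zero => exact ⟨0, fun _ _ _ _ _ _ => le_rfl⟩
    | succ j =>
      obtain ⟨P2, hP2⟩ := lrb sub tr charT D (G.neighborSet s ∩ G.neighborSet t)
        (fun h => hKt _ h rfl) j
      refine ⟨P2, fun p _ hp hp2 ε hε => ?_⟩
      refine le_trans (le_of_eq ?_) (hP2 p hp hp2 ε hε)
      have e1 := tr ↥(G.neighborSet s ∩ G.neighborSet t) V (ZMod p) (Equiv.Perm X → X → ZMod p) (con G s t)
        ((con G s t).induce (G.neighborSet s ∩ G.neighborSet t))
        (lr s t (bM (ZMod p) q) (dM (ZMod p) (q s)) ε) (fun u => (u : V))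
        (Subtype.strictMono_coe _) (fun u u' => Iff.rfl) j
      have e2 := tr ↥(G.neighborSet s ∩ G.neighborSet t) V (ZMod p) (Equiv.Perm X → X → ZMod p) G
        (G.induce (G.neighborSet s ∩ G.neighborSet t))
        (lr s t (bM (ZMod p) q) (dM (ZMod p) (q s)) ε) (fun u => (u : V))
        (Subtype.strictMono_coe _) (fun u u' => Iff.rfl) j
      rw [Subtype.range_coe] at e1 e2
      rw [hKeq] at e1
      exact e2.trans e1.symm
  obtain ⟨p, hp, hpp⟩ := Nat.exists_infinite_primes (max (max P1 P2) 3)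
  have hpF : Fact p.Prime := ⟨hpp⟩
  have hp3 : p ≠ 2 := by
    have := (le_max_right (max P1 P2) 3).trans hp
    omega
  have hp2 : (2 : ZMod p) ≠ 0 := by
    intro h
    have h' : ((2 : ℕ) : ZMod p) = 0 := by exact_mod_cast h
    rw [ZMod.natCast_eq_zero_iff] at h'
    exact hp3 ((Nat.prime_dvd_prime_iff_eq hpF.out Nat.prime_two).1 h')
  have hpP1 : P1 ≤ p := ((le_max_left P1 P2).trans (le_max_left _ 3)).trans hp
  have hpP2 : P2 ≤ p := ((le_max_right P1 P2).trans (le_max_left _ 3)).trans hp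
  obtain ⟨n, hn⟩ : ∃ n, n + 1 = 4 * (N + 1) * 2 ^ Fintype.card V :=
    ⟨4 * (N + 1) * 2 ^ Fintype.card V - 1, Nat.sub_add_cancel (Nat.one_le_iff_ne_zero.2 (by positivity))⟩
  have hJ := beta_rJ D hsq p n hp2 hp3 i _ (fun ε hε => Nat.add_le_add (hP1 p hpP1 hp2 ε hε)
    (hP2 p hpP2 hp2 ε hε))
  -- the finite set
  have hM0 : Finite (Fin (n + 1) → X → ZMod p) := inferInstance
  have hEnd : Finite (Module.End (ZMod p) (Fin (n + 1) → X → ZMod p)) :=
    Finite.of_injective (fun g => (g : (Fin (n + 1) → X → ZMod p) → (Fin (n + 1) → X → ZMod p)))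
      DFunLike.coe_injective
  have hFY : Fintype ((Module.End (ZMod p) (Fin (n + 1) → X → ZMod p))ˣ × (Equiv.Perm X × (V → ℤˣ))) :=
    Fintype.ofFinite _
  have hconv := conv hp2 sub (Φ D) (SS D p n) (SS_unip D p n) i
  have hla : ∀ v z, la (Φ D) v z = (q' q s t v * z.1, flu v z.2) := by
    intro v z
    unfold la
    rw [Φ_simple]
    rfl
  refine ⟨p, hpF, hp3, _, hFY, ⟨(1, 1)⟩, aY (Φ D) (SS D p n), fun v y => decide (y.2.2 v = 1),
    aY_inv _ _, aY_comm _ _, fun v y => ?_, fun u v huv y => ?_, ?_⟩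
  · show decide ((la (Φ D) v y.2).2 v = 1) = !(decide (y.2.2 v = 1))
    rw [hla]
    show decide ((Pi.mulSingle v (-1) * y.2.2 : V → ℤˣ) v = 1) = _
    rw [Pi.mul_apply, Pi.mulSingle_eq_same]
    rcases Int.units_eq_one_or (y.2.2 v) with h | h <;> rw [h] <;> decide
  · show decide ((la (Φ D) v y.2).2 u = 1) = decide (y.2.2 u = 1)
    rw [hla]
    show decide ((Pi.mulSingle v (-1) * y.2.2 : V → ℤˣ) u = 1) = _
    rw [Pi.mul_apply, Pi.mulSingle_eq_of_ne huv, one_mul]
  · have hfr : finrank (ZMod p) (Equiv.Perm X × (V → ℤˣ) → Fin (n + 1) → X → ZMod p) =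
        (Fintype.card (Equiv.Perm X) * 2 ^ Fintype.card V) * ((n + 1) * Fintype.card X) := by
      rw [finrank_pi_fintype, Finset.sum_const, Finset.card_univ, smul_eq_mul, finrank_pi_fintype,
        Finset.sum_const, Finset.card_univ, smul_eq_mul, finrank_fintype_fun_eq_card, Fintype.card_fin,
        Fintype.card_prod, Fintype.card_fun]
      rfl
    rw [hfr] at hconv
    exact arith_final (Nat.mul_pos Fintype.card_pos Fintype.card_pos) (by positivity) hconv hJ hZ1 hZ2 hn

end Pool.Agent.R781.VS
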