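import Pool.Agent.R781.VS.Four

/-!
# The model
-/

set_option autoImplicit false
set_option linter.unusedSectionVars false

namespace Pool.Agent.R781.VS

open Module Pool.Agent.W907.SG Pool.Agent.W907.SM
open Pool.Agent.W143.SG.MLP (beta_zero beta_iso rp rp_apply foldr_pull chi chi_act chi_sq)
open Pool.Agent.W705.SM (cw beta_pi hm hm_apply genH)
open Pool.Agent.W461.SGN (liftable simple_mul_self simple_comm)

section model
variable {V X : Type} [Fintype V] [LinearOrder V] [Fintype X] [DecidableEq X]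

/-- the data -/
structure Dat (G : SimpleGraph V) (s t : V) (q : V → Equiv.Perm X) (sgn : V → X → Bool) : Prop where
  adj : G.Adj s t
  inv : ∀ v, q v * q v = 1
  comm : ∀ u v, (con G s t).Adj u v → q u * q v = q v * q u
  ss : ∀ v x, sgn v (q v x) = !(sgn v x)
  so : ∀ u v, u ≠ v → ∀ x, sgn u (q v x) = sgn u x

/-- the sign -/
def sv (F : Type) [Field F] (sgn : X → Bool) (x : X) : F := if sgn x then -1 else 1

theorem sv_sq {F : Type} [Field F] (sgn : X → Bool) (x : X) : sv F sgn x * sv F sgn x = 1 := by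
  unfold sv
  split_ifs <;> ring

section ops
variable (F : Type) [Field F]

def bM (q : V → Equiv.Perm X) (v : V) : (Equiv.Perm X → X → F) →ₗ[F] (Equiv.Perm X → X → F) where
  toFun f π x := f (q v * π) (q v x)
  map_add' _ _ := rfl
  map_smul' _ _ := rfl

def cM (g : Equiv.Perm X) : (Equiv.Perm X → X → F) →ₗ[F] (Equiv.Perm X → X → F) where
  toFun f π x := f (g * π) x
  map_add' _ _ := rfl
  map_smul' _ _ := rfl

def dM (g : Equiv.Perm X) : (Equiv.Perm X → X → F) →ₗ[F] (Equiv.Perm X → X → F) where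
  toFun f π x := f π (g x)
  map_add' _ _ := rfl
  map_smul' _ _ := rfl

def sM (χ : X → F) : (Equiv.Perm X → X → F) →ₗ[F] (Equiv.Perm X → X → F) where
  toFun f π x := χ x * f π x
  map_add' f g := by funext π x; exact mul_add _ _ _
  map_smul' c f := by funext π x; exact mul_left_comm _ _ _

def bX (q : V → Equiv.Perm X) (v : V) : (X → F) →ₗ[F] (X → F) where
  toFun f x := f (q v x)
  map_add' _ _ := rfl
  map_smul' _ _ := rfl

def sX (χ : X → F) : (X → F) →ₗ[F] (X → F) where
  toFun f x := χ x * f x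
  map_add' f g := by funext x; exact mul_add _ _ _
  map_smul' c f := by funext x; exact mul_left_comm _ _ _

end ops

/-- the action on `Z` -/
def aZ (q : V → Equiv.Perm X) (s : V) (v : V) (z : Equiv.Perm X × X) : Equiv.Perm X × X :=
  (if v = s then z.1 else q v * z.1, q v z.2)

variable {G : SimpleGraph V} {s t : V} {q : V → Equiv.Perm X} {sgn : V → X → Bool}

theorem con_adj (hst : s ≠ t) {v : V} (hs : v ≠ s) (ht : v ≠ t) (h : G.Adj v s ∨ G.Adj v t) :
    (con G s t).Adj v s := by
  refine ⟨hs, ht, hst, ?_⟩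
  rcases h with h | h
  · exact Or.inl h
  · exact Or.inr (Or.inr ⟨rfl, h.symm⟩)

theorem con_adj' {u v : V} (hu : u ≠ t) (hv : v ≠ t) (h : G.Adj u v) : (con G s t).Adj u v :=
  ⟨h.ne, hu, hv, Or.inl h⟩

theorem con_adj_iff {u v : V} (hu : u ≠ s) (hu' : u ≠ t) (hv : v ≠ s) (hv' : v ≠ t) :
    (con G s t).Adj u v ↔ G.Adj u v := by
  constructor
  · rintro ⟨-, -, -, h | ⟨h, -⟩ | ⟨h, -⟩⟩
    · exact h
    · exact absurd h hu
    · exact absurd h hv
  · exact con_adj' hu' hv'

variable (D : Dat G s t q sgn)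
include D

theorem Dat.inv_app (v : V) (x : X) : q v (q v x) = x := by
  have := D.inv v
  exact congrArg (fun g => (g : Equiv.Perm X) x) this

theorem Dat.inv_mul (v : V) (π : Equiv.Perm X) : q v * (q v * π) = π := by
  rw [← mul_assoc, D.inv, one_mul]

theorem Dat.comm_app (u v : V) (h : (con G s t).Adj u v) (x : X) : q u (q v x) = q v (q u x) := by
  have := D.comm u v h
  exact congrArg (fun g => (g : Equiv.Perm X) x) this

theorem Dat.comm_mul (u v : V) (h : (con G s t).Adj u v) (π : Equiv.Perm X) :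
    q u * (q v * π) = q v * (q u * π) := by
  rw [← mul_assoc, D.comm u v h, mul_assoc]

theorem Dat.sv_s (F : Type) [Field F] (x : X) : sv F (sgn s) (q s x) = - sv F (sgn s) x := by
  unfold sv
  rw [D.ss]
  cases sgn s x <;> simp

theorem Dat.sv_o (F : Type) [Field F] {v : V} (hv : v ≠ s) (x : X) :
    sv F (sgn s) (q v x) = sv F (sgn s) x := by
  unfold sv
  rw [D.so s v hv.symm]

theorem relM (F : Type) [Field F] :
    Rel G s t (bM F q) (cM F (q s)) (dM F (q s)) (sM F (sv F (sgn s))) where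
  c2 f := by
    funext π x
    show f (q s * (q s * π)) x = f π x
    rw [D.inv_mul]
  d2 f := by
    funext π x
    show f π (q s (q s x)) = f π x
    rw [D.inv_app]
  s2 f := by
    funext π x
    show sv F (sgn s) x * (sv F (sgn s) x * f π x) = f π x
    rw [← mul_assoc, sv_sq, one_mul]
  cd f := rfl
  cs f := rfl
  sd f := by
    funext π x
    show sv F (sgn s) x * f π (q s x) = - (sv F (sgn s) (q s x) * f π (q s x))
    rw [D.sv_s, neg_mul, neg_neg]
  bs v hs ht f := by
    funext π x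
    show sv F (sgn s) (q v x) * f (q v * π) (q v x) = sv F (sgn s) x * f (q v * π) (q v x)
    rw [D.sv_o F hs]
  bc v hs ht h f := by
    funext π x
    show f (q s * (q v * π)) (q v x) = f (q v * (q s * π)) (q v x)
    rw [D.comm_mul v s (con_adj D.adj.ne hs ht h)]
  bd v hs ht h f := by
    funext π x
    show f (q v * π) (q s (q v x)) = f (q v * π) (q v (q s x))
    rw [D.comm_app v s (con_adj D.adj.ne hs ht h)]

theorem relX (F : Type) [Field F] :
    Rel G s t (bX F q) LinearMap.id (bX F q s) (sX F (sv F (sgn s))) where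
  c2 f := rfl
  d2 f := by
    funext x
    show f (q s (q s x)) = f x
    rw [D.inv_app]
  s2 f := by
    funext x
    show sv F (sgn s) x * (sv F (sgn s) x * f x) = f x
    rw [← mul_assoc, sv_sq, one_mul]
  cd f := rfl
  cs f := rfl
  sd f := by
    funext x
    show sv F (sgn s) x * f (q s x) = - (sv F (sgn s) (q s x) * f (q s x))
    rw [D.sv_s, neg_mul, neg_neg]
  bs v hs ht f := by
    funext x
    show sv F (sgn s) (q v x) * f (q v x) = sv F (sgn s) x * f (q v x)
    rw [D.sv_o F hs]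
  bc v hs ht h f := rfl
  bd v hs ht h f := by
    funext x
    show f (q s (q v x)) = f (q v (q s x))
    rw [D.comm_app v s (con_adj D.adj.ne hs ht h)]

theorem bX_inv (F : Type) [Field F] (v : V) (f : X → F) : bX F q v (bX F q v f) = f := by
  funext x
  show f (q v (q v x)) = f x
  rw [D.inv_app]

theorem bX_comm (F : Type) [Field F] (u v : V) (hu : u ≠ s) (hu' : u ≠ t) (hv : v ≠ s) (hv' : v ≠ t)
    (h : G.Adj u v) (f : X → F) : bX F q u (bX F q v f) = bX F q v (bX F q u f) := by
  funext x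
  show f (q v (q u x)) = f (q u (q v x))
  rw [D.comm_app u v ((con_adj_iff hu hu' hv hv').2 h)]

theorem bM_inv (F : Type) [Field F] (v : V) (f : Equiv.Perm X → X → F) : bM F q v (bM F q v f) = f := by
  funext π x
  show f (q v * (q v * π)) (q v (q v x)) = f π x
  rw [D.inv_app, D.inv_mul]

theorem bM_comm (F : Type) [Field F] (u v : V) (hu : u ≠ s) (hu' : u ≠ t) (hv : v ≠ s) (hv' : v ≠ t)
    (h : G.Adj u v) (f : Equiv.Perm X → X → F) : bM F q u (bM F q v f) = bM F q v (bM F q u f) := by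
  funext π x
  show f (q v * (q u * π)) (q v (q u x)) = f (q u * (q v * π)) (q u (q v x))
  rw [D.comm_app u v ((con_adj_iff hu hu' hv hv').2 h), D.comm_mul u v ((con_adj_iff hu hu' hv hv').2 h)]

theorem aZ_inv (v : V) (z : Equiv.Perm X × X) : aZ q s v (aZ q s v z) = z := by
  refine Prod.ext ?_ (D.inv_app v z.2)
  show (if v = s then (if v = s then z.1 else q v * z.1) else q v * (if v = s then z.1 else q v * z.1)) = z.1
  split_ifs
  · rfl
  · exact D.inv_mul v z.1

theorem aZ_comm (u v : V) (h : (con G s t).Adj u v) (z : Equiv.Perm X × X) :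
    aZ q s u (aZ q s v z) = aZ q s v (aZ q s u z) := by
  refine Prod.ext ?_ (D.comm_app u v h z.2)
  show (if u = s then (if v = s then z.1 else q v * z.1) else q u * (if v = s then z.1 else q v * z.1)) =
    (if v = s then (if u = s then z.1 else q u * z.1) else q v * (if u = s then z.1 else q u * z.1))
  split_ifs
  · rfl
  · rfl
  · rfl
  · exact D.comm_mul u v h z.1

omit D

/-- removing the signs -/
theorem sgn_rm {p : ℕ} [Fact p.Prime] (hp2 : (2 : ZMod p) ≠ 0) (hS : S_SUB) {U : Type} [Fintype U]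
    [LinearOrder U] (K : SimpleGraph U) (a : U → Equiv.Perm X × X → Equiv.Perm X × X) (sg : U → X → Bool)
    (inv : ∀ v z, a v (a v z) = z) (comm : ∀ u v, K.Adj u v → ∀ z, a u (a v z) = a v (a u z))
    (h1 : ∀ v z, sg v (a v z).2 = !(sg v z.2)) (h2 : ∀ u v, u ≠ v → ∀ z, sg u (a v z).2 = sg u z.2)
    (ε : U → ZMod p) (hε : ∀ v, ε v * ε v = 1)
    (ρ : U → (Equiv.Perm X → X → ZMod p) →ₗ[ZMod p] (Equiv.Perm X → X → ZMod p))
    (hρ : ∀ v f π x, ρ v f π x = ε v * f (a v (π, x)).1 (a v (π, x)).2) (i : ℕ) :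
    beta K ρ Set.univ ∅ i ≤ beta K (pull (ZMod p) a) Set.univ ∅ i := by
  have hca := fun (ε : U → ZMod p) (hε : ∀ v, ε v * ε v = 1) => chi_act (X := Equiv.Perm X × X) a
    (fun v z => sg v z.2) hε h1 h2
  have hcs := chi_sq (X := Equiv.Perm X × X) (fun v z => sg v z.2) hε
  obtain ⟨χ, hχ⟩ : ∃ χ : Equiv.Perm X × X → ZMod p, χ = chi (fun v (z : Equiv.Perm X × X) => sg v z.2) ε :=
    ⟨_, rfl⟩
  have hca' : ∀ v z, ε v * χ (a v z) = χ z := by rw [hχ]; exact hca ε hε
  have hcs' : ∀ z, χ z * χ z = 1 := by rw [hχ]; exact hcs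
  refine beta_iso hS K (pull (ZMod p) a) ρ
    { toFun := fun f π x => χ (π, x) * f (π, x)
      map_add' := fun f g => by funext π x; exact mul_add _ _ _
      map_smul' := fun c f => by funext π x; exact mul_left_comm _ _ _ } hp2 ?_ ?_ ?_ ?_ ?_ i
  · intro v m
    funext π x
    rw [hρ, hρ]
    show ε v * (ε v * m (a v (a v (π, x))).1 (a v (a v (π, x))).2) = _
    rw [inv, ← mul_assoc, hε, one_mul]
  · intro u v huv m
    funext π x
    rw [hρ, hρ, hρ, hρ]
    show ε u * (ε v * m (a v (a u (π, x))).1 (a v (a u (π, x))).2) =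
      ε v * (ε u * m (a u (a v (π, x))).1 (a u (a v (π, x))).2)
    rw [comm u v huv]
    ring
  · intro v m
    funext π x
    rw [hρ]
    show χ (π, x) * m (a v (π, x)) = ε v * (χ (a v (π, x)) * m (a v (π, x)))
    rw [← mul_assoc, hca']
  · intro f g hfg
    funext ⟨π, x⟩
    have h3 : χ (π, x) * f (π, x) = χ (π, x) * g (π, x) := congrFun (congrFun hfg π) x
    have h4 : χ (π, x) * (χ (π, x) * f (π, x)) = χ (π, x) * (χ (π, x) * g (π, x)) := by rw [h3]
    rwa [← mul_assoc, ← mul_assoc, hcs', one_mul, one_mul] at h4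
  · intro g
    refine ⟨fun z => χ z * g z.1 z.2, ?_⟩
    funext π x
    show χ (π, x) * (χ (π, x) * g π x) = g π x
    rw [← mul_assoc, hcs', one_mul]

/-- comparison with the real Betti numbers -/
theorem lrb (hS : S_SUB) (hTR : S_TR) (hCh : S_CHAR) (D : Dat G s t q sgn) (A : Set V) [Fintype A]
    (htA : t ∉ A) (k : ℕ) :
    ∃ P0 : ℕ, ∀ (p : ℕ) [Fact p.Prime], P0 ≤ p → (2 : ZMod p) ≠ 0 → ∀ ε : V → ZMod p,
      (∀ v, ε v = 1 ∨ ε v = -1) →
      beta (con G s t) (lr s t (bM (ZMod p) q) (dM (ZMod p) (q s)) ε) A ∅ k ≤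
        beta (con G s t) (pull ℝ (aZ q s)) A ∅ k := by
  classical
  obtain ⟨P0, hP0⟩ := (hCh A (Equiv.Perm X × X) ((con G s t).induce A) (fun u => aZ q s (u : V))
    (fun u z => sgn (u : V) z.2) (fun v z => aZ_inv D _ z) (fun u v h z => aZ_comm D _ _ h z)
    (fun v z => D.ss _ _) (fun u v h z => D.so _ _ (fun e => h (Subtype.ext e)) _) k).2
  refine ⟨P0, fun p _ hp hp2 ε hε => ?_⟩
  have hε2 : ∀ v, ε v * ε v = 1 := by
    intro v
    rcases hε v with h | h <;> rw [h] <;> ring
  have e1 := hTR A V (ZMod p) (Equiv.Perm X → X → ZMod p) (con G s t) ((con G s t).induce A)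
    (lr s t (bM (ZMod p) q) (dM (ZMod p) (q s)) ε) (fun u => (u : V))
    (Subtype.strictMono_coe _) (fun u u' => Iff.rfl) k
  have e2 := hTR A V ℝ (Equiv.Perm X × X → ℝ) (con G s t) ((con G s t).induce A)
    (pull ℝ (aZ q s)) (fun u => (u : V)) (Subtype.strictMono_coe _) (fun u u' => Iff.rfl) k
  rw [Subtype.range_coe] at e1 e2
  rw [e1, e2]
  refine le_trans ?_ (hP0 p hp)
  refine sgn_rm hp2 hS ((con G s t).induce A) (fun u => aZ q s (u : V)) (fun u x => sgn (u : V) x)
    (fun v z => aZ_inv D _ z) (fun u v h z => aZ_comm D _ _ h z)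
    (fun v z => D.ss _ _) (fun u v h z => D.so _ _ (fun e => h (Subtype.ext e)) _)
    (fun u => if (u : V) = s then 1 else ε u) (fun u => by
      split_ifs
      · exact one_mul 1
      · exact hε2 _) _ ?_ k
  intro u f π x
  have hut : (u : V) ≠ t := fun e => htA (e ▸ u.2)
  by_cases hus : (u : V) = s
  · have h1 : lr s t (bM (ZMod p) q) (dM (ZMod p) (q s)) ε (u : V) = dM (ZMod p) (q s) :=
      if_pos (Or.inl hus)
    rw [h1, if_pos hus, one_mul]
    show f π (q s x) = f (if (u : V) = s then π else q u * π) (q u x)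
    rw [if_pos hus, hus]
  · have h1 : lr s t (bM (ZMod p) q) (dM (ZMod p) (q s)) ε (u : V) = ε u • bM (ZMod p) q u :=
      if_neg (by rintro (h | h); exacts [hus h, hut h])
    rw [h1, if_neg hus]
    show ε u * f (q u * π) (q u x) = ε u * f (if (u : V) = s then π else q u * π) (q u x)
    rw [if_neg hus]

end model

end Pool.Agent.R781.VS
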